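import Pool.Agent.Helper99.WP.Main

open MeasureTheory ProbabilityTheory Filter
open Pool.Agent.Helper99.ERW

/-- The dichotomy for balanced excited random walks: every balanced excited random walk on `ℤ^d` with
a uniformly elliptic cookie environment which is i.i.d. over the sites, or only stationary under the
shifts (in particular stationary and ergodic), is recurrent if `d = 2` and transient if `d ≥ 3`. -/
theorem Pool.Agent.Results.MP_f41a60_pr.BalancedDichotomy.result {d : ℕ}
    (P : Measure (Env d)) [IsProbabilityMeasure P]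
    (hcookie : ∀ᵐ ω ∂P, IsCookieEnv ω) (hbal : ∀ᵐ ω ∂P, IsBalanced ω) (hE : UEL P)
    (hS : IID P ∨ ∀ x, P.map (shift x) = P)
    {Ω : Type*} [MeasurableSpace Ω] (μ : Measure Ω) [IsProbabilityMeasure μ]
    (env : Ω → Env d) (X : ℕ → Ω → Site d) (hX : IsERW P μ env X) :
    (d = 2 → Recurrent μ X) ∧ (3 ≤ d → Transient μ X) :=
  Pool.Agent.Helper99.WP.Main.main P hcookie hbal hE hS μ env X hX
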