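import Pool.Agent.Helper99.MKV.Final

open MeasureTheory ProbabilityTheory Filter
open Pool.Agent.Helper99.ERW Pool.Agent.Helper99.MKV

/-- Recurrence of all planar balanced excited random walks with Markovian cookie stacks of one
asymptotic mean: `E` is a finite set of cookie types, `f e` the probability of a step in the first
coordinate, `p` any stochastic matrix on `E` such that `f` has the mean `a` in `(0,1)` under every
stationary law of `p`, the field of the first cookies is stationary and ergodic, and given it the
stacks are independent Markov chains with transition matrix `p`. -/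
theorem Pool.Agent.Results.MP_f41a60_pr.RecurrentMarkov.result {E : Type} [Fintype E]
    [MeasurableSpace E] [MeasurableSingletonClass E]
    (p : E → E → ℝ) (hp : Stoch p) (f : E → ℝ) (hf : ∀ e, 0 ≤ f e ∧ f e ≤ 1)
    (a : ℝ) (ha0 : 0 < a) (ha1 : a < 1) (hmean : MeanIs p f a)
    (ν : Measure (Site 2 → E)) [IsProbabilityMeasure ν] (hν : SEs ν)
    (Q : Measure (Site 2 → ℕ → E)) [IsProbabilityMeasure Q] (hQ : IsField p ν Q)
    {Ω : Type*} [MeasurableSpace Ω] (μ : Measure Ω) [IsProbabilityMeasure μ]
    (env : Ω → Env 2) (X : ℕ → Ω → Site 2) (hX : IsERW (Q.map (envOf f)) μ env X) :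
    Recurrent μ X :=
  Pool.Agent.Helper99.MKV.recurrent_markov p hp f hf a ha0 ha1 hmean ν hν Q hQ μ env X hX
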