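import Pool.Agent.Helper99.EXC.Final

open MeasureTheory ProbabilityTheory Filter
open Pool.Agent.Helper99.ERW

/-- Recurrence of all planar balanced excited random walks in stationary ergodic environments with
square integrable total excitation with respect to a fixed pair `(a, 1 - a)`: no ellipticity, no
smallness, any number of cookies. -/
theorem Pool.Agent.Results.MP_f41a60_pr.RecurrentTotal.result {Ω : Type*}
    [MeasurableSpace Ω] (P : Measure (Env 2)) [IsProbabilityMeasure P]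
    (μ : Measure Ω) [IsProbabilityMeasure μ] (env : Ω → Env 2) (X : ℕ → Ω → Site 2)
    (hX : IsERW P μ env X)
    (hcookie : ∀ᵐ ω ∂P, IsCookieEnv ω) (hbal : ∀ᵐ ω ∂P, IsBalanced ω) (hSE : SE P)
    (a : ℝ) (ha0 : 0 < a) (ha1 : a < 1)
    (W : Stack 2 → ℝ) (hW2 : MemLp (fun ω : Env 2 => W (ω 0)) 2 P)
    (hW : ∀ᵐ ω ∂P, ∀ j : ℕ, ∑ i ∈ Finset.range j, |2 * ω 0 (0, true) i - a| ≤ W (ω 0)) :
    Recurrent μ X :=
  Pool.Agent.Helper99.EXC.recurrent_total P μ env X hX hcookie hbal hSE a ha0 ha1 W hW2 hW
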