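import Pool.Agent.Helper99.ERW.Transient

open MeasureTheory ProbabilityTheory Filter
open Pool.Agent.Helper99.ERW

/-- Transience of balanced excited random walks with i.i.d. stacks under an averaged cumulative
condition on the stack of one site. -/
theorem Pool.Agent.Results.MP_f41a60_pr.TransientIID.result {d : ℕ} {Ω : Type*}
    [MeasurableSpace Ω] (P : Measure (Env d)) [IsProbabilityMeasure P]
    (μ : Measure Ω) [IsProbabilityMeasure μ] (env : Ω → Env d) (X : ℕ → Ω → Site d)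
    (hX : IsERW P μ env X)
    (hcookie : ∀ᵐ ω ∂P, IsCookieEnv ω) (hbal : ∀ᵐ ω ∂P, IsBalanced ω) (hIID : IID P)
    (lam : Fin d → ℝ) (hlam : ∀ l, 0 < lam l) (ε : ℝ) (hε : 0 < ε)
    (V : Fin d → Stack d → ℝ) (hVmeas : ∀ l, Measurable (V l))
    (hVint : ∀ l, Integrable (fun ω : Env d => V l (ω 0)) P)
    (hVmean : ∀ l, ∫ ω, V l (ω 0) ∂P ≤ 0)
    (hV : ∀ᵐ ω ∂P, ∀ l, ∀ j : ℕ, 1 ≤ j → ∑ i ∈ Finset.range j,
      (2 * (lam l * (2 * ω 0 (l, true) i)) - ∑ k, lam k * (2 * ω 0 (k, true) i) + ε) ≤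
        V l (ω 0)) :
    Transient μ X :=
  hX.transient hcookie hbal hIID lam hlam ε hε V hVmeas hVint hVmean hV
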